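import Pool.Agent.R851.SK.Sv

set_option autoImplicit false

/-!
The sieve with a union bound over small parameters, with polynomially bounded exceptional numbers
(copied with changes from `Pool.Agent.K3h1.PS.Uni`, helper1; helper11).
-/

namespace Pool.Agent.K3h11.MK

open Filter Finset Pool.Agent.TH838.SK Pool.Agent.H684R3.Smo Pool.Agent.R851.SK

/-- The sieve with a union bound over all small parameters `s`; the primes dividing `D s` are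
excluded. -/
theorem sieve_unif2 (ι J : Type) [Fintype ι] [DecidableEq ι] [Fintype J] [DecidableEq J]
    (P : ℕ → Prop) (κ θ c : ℝ) (hκ : 0 < κ) (hθ : 0 < θ) (hc : 0 ≤ c)
    (hN : ∃ y₀ : ℕ, ∀ y : ℕ, y₀ ≤ y → (y : ℝ) ^ θ ≤ (Nat.card {p : ℕ // P p ∧ p ≤ y} : ℝ))
    (hP : ∀ p, P p → p.Prime) :
    ∃ δ : ℝ, 0 < δ ∧ ∃ H₀ : ℕ, ∀ H : ℕ, H₀ ≤ H → ∀ D : (J → ℤ) → ℤ,
      (∀ s, (∀ j, |(s j : ℝ)| ≤ H) → |(D s : ℝ)| ≤ (H : ℝ) ^ c) →
      ∀ G : (J → ℤ) → ∀ p : ℕ, Set (ι → ZMod p),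
      (∀ s, ∀ p, P p → ¬ (p : ℤ) ∣ D s →
        κ * (p : ℝ) ^ Fintype.card ι ≤ (Nat.card (G s p) : ℝ)) → ∀ b : ι → ℤ,
      (Nat.card {v : ι → ℤ // v ∈ bx b H ∧ ∃ s : J → ℤ, (∀ j, |(s j : ℝ)| ≤ (H : ℝ) ^ δ) ∧
        D s ≠ 0 ∧ ∀ p, P p → ¬ (p : ℤ) ∣ D s → (p : ℝ) ≤ Real.log H ^ (2 / θ) →
          (fun i => (v i : ZMod p)) ∉ G s p} : ℝ) ≤
        (2 * (H : ℝ) + 1) ^ Fintype.card ι * (H : ℝ) ^ (-δ) := by
  classical
  set L : ℝ := 2 * c with hLdef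
  have hL : 0 ≤ L := by positivity
  obtain ⟨δ₀, hδ₀, H₁, hmain⟩ := t5e (t4 (t3 t1 t2)) ι P κ θ L hκ hθ hL hN
  set N : ℕ := Fintype.card J with hNdef
  set δ₁ : ℝ := min δ₀ 1 with hδ₁
  have hδ₁0 : 0 < δ₁ := lt_min hδ₀ one_pos
  set δ : ℝ := δ₁ / (2 * (N + 1)) with hδ
  have hδ0 : 0 < δ := by positivity
  have hδle : δ ≤ 1 := by
    rw [hδ, div_le_one (by positivity)]
    have : δ₁ ≤ 1 := min_le_right _ _
    have h2 : (0 : ℝ) ≤ N := Nat.cast_nonneg _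
    linarith
  have hev : ∀ᶠ H : ℕ in Filter.atTop, (3 : ℝ) ^ N ≤ (H : ℝ) ^ (δ₁ / 2) := by
    have : Filter.Tendsto (fun y : ℕ => (y : ℝ) ^ (δ₁ / 2)) Filter.atTop Filter.atTop :=
      (tendsto_rpow_atTop (by positivity)).comp tendsto_natCast_atTop_atTop
    exact this.eventually_ge_atTop _
  obtain ⟨H₂, hH₂⟩ := Filter.eventually_atTop.1 hev
  refine ⟨δ, hδ0, max 3 (max H₁ H₂), fun H hH D hD G hG b => ?_⟩
  have hH1 : 3 ≤ H := (le_max_left _ _).trans hH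
  have hHH₁ : H₁ ≤ H := (le_max_left _ _).trans ((le_max_right _ _).trans hH)
  have hHH₂ : H₂ ≤ H := (le_max_right _ _).trans ((le_max_right _ _).trans hH)
  have hHr3 : (3 : ℝ) ≤ H := by exact_mod_cast hH1
  have hHr : (1 : ℝ) ≤ H := by linarith
  have hHr0 : (0 : ℝ) < H := by linarith
  have hlog1 : 1 ≤ Real.log H := by
    rw [Real.le_log_iff_exp_le hHr0]
    have := Real.exp_one_lt_d9
    linarith
  set X : ℝ := (H : ℝ) ^ δ with hX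
  have hX1 : 1 ≤ X := Real.one_le_rpow hHr hδ0.le
  set W : Finset (J → ℤ) := (Fintype.piFinset fun _ : J => Finset.Icc (-⌊X⌋) ⌊X⌋).filter
    (fun s => D s ≠ 0) with hW
  have hWmem : ∀ s : J → ℤ, s ∈ W ↔ (∀ j, |(s j : ℝ)| ≤ X) ∧ D s ≠ 0 := by
    intro s
    rw [hW, Finset.mem_filter, Fintype.mem_piFinset]
    apply and_congr_left'
    refine forall_congr' fun j => ?_
    rw [Finset.mem_Icc, abs_le, Int.le_floor]
    apply and_congr_left'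
    constructor
    · intro h1
      have h2 : ((-⌊X⌋ : ℤ) : ℝ) ≤ (s j : ℝ) := by exact_mod_cast h1
      push_cast at h2
      have := Int.floor_le X
      linarith
    · intro h1
      have h2 : -(s j) ≤ ⌊X⌋ := by
        rw [Int.le_floor]
        push_cast
        linarith
      linarith
  let B : (J → ℤ) → Finset (ι → ℤ) := fun s => (bx b H).filter
    (fun v => ∀ p, P p → ¬ (p : ℤ) ∣ D s → (p : ℝ) ≤ Real.log H ^ (2 / θ) →
      (fun i => (v i : ZMod p)) ∉ G s p)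
  have hB : ∀ s ∈ W, ((B s).card : ℝ) ≤
      (2 * (H : ℝ) + 1) ^ Fintype.card ι * (H : ℝ) ^ (-δ₁) := by
    intro s hs
    rw [hWmem] at hs
    have hE : ((D s).natAbs.primeFactors.card : ℝ) ≤ L * Real.log H := by
      have hXH : X ≤ H := by
        calc X = (H : ℝ) ^ δ := hX
          _ ≤ (H : ℝ) ^ (1 : ℝ) := Real.rpow_le_rpow_of_exponent_le hHr hδle
          _ = H := Real.rpow_one _
      have h1 := card_pf (D s) hs.2 ((H : ℝ) ^ c) (hD s fun j => (hs.1 j).trans hXH)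
      rw [Real.log_rpow hHr0] at h1
      rw [hLdef]
      linarith
    have hmemE : ∀ p, P p → (p ∉ (D s).natAbs.primeFactors ↔ ¬ (p : ℤ) ∣ D s) := by
      intro p hp
      rw [Nat.mem_primeFactors]
      have h1 : (p : ℤ) ∣ D s ↔ p ∣ (D s).natAbs := Int.natCast_dvd
      rw [h1]
      have h2 := hP p hp
      have h3 : (D s).natAbs ≠ 0 := Int.natAbs_ne_zero.2 hs.2
      tauto
    have h1 := hmain H hHH₁ (D s).natAbs.primeFactors hE (G s)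
      (fun p hp hpE => ⟨hP p hp, hG s p hp ((hmemE p hp).1 hpE)⟩) b
    have h2 : (B s).card ≤ Nat.card {v : ι → ℤ // v ∈ bx b H ∧ ∀ p, P p →
        p ∉ (D s).natAbs.primeFactors →
        (p : ℝ) ≤ Real.log H ^ (2 / θ) → (fun i => (v i : ZMod p)) ∉ G s p} := by
      rw [← Nat.card_eq_finsetCard]
      apply le_of_eq
      apply Nat.card_congr
      apply Equiv.subtypeEquivRight
      intro v
      simp only [B, Finset.mem_filter]
      apply and_congr_right'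
      refine forall_congr' fun p => forall_congr' fun hp => ?_
      rw [hmemE p hp]
    have h3 : (H : ℝ) ^ (-δ₀) ≤ (H : ℝ) ^ (-δ₁) :=
      Real.rpow_le_rpow_of_exponent_le hHr (neg_le_neg (min_le_left _ _))
    calc ((B s).card : ℝ) ≤ _ := by exact_mod_cast h2
      _ ≤ _ := h1
      _ ≤ _ := mul_le_mul_of_nonneg_left h3 (by positivity)
  have hsub : ∀ v : ι → ℤ, (v ∈ bx b H ∧ ∃ s : J → ℤ, (∀ j, |(s j : ℝ)| ≤ X) ∧
        D s ≠ 0 ∧ ∀ p, P p → ¬ (p : ℤ) ∣ D s → (p : ℝ) ≤ Real.log H ^ (2 / θ) →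
          (fun i => (v i : ZMod p)) ∉ G s p) → v ∈ W.biUnion B := by
    rintro v ⟨hv, s, h1, h2, h3⟩
    rw [Finset.mem_biUnion]
    exact ⟨s, (hWmem s).2 ⟨h1, h2⟩, by simp only [B, Finset.mem_filter]; exact ⟨hv, h3⟩⟩
  have hfin : Nat.card {v : ι → ℤ // v ∈ bx b H ∧ ∃ s : J → ℤ, (∀ j, |(s j : ℝ)| ≤ X) ∧
        D s ≠ 0 ∧ ∀ p, P p → ¬ (p : ℤ) ∣ D s → (p : ℝ) ≤ Real.log H ^ (2 / θ) →
          (fun i => (v i : ZMod p)) ∉ G s p} ≤ (W.biUnion B).card := by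
    rw [← Nat.card_eq_finsetCard]
    exact Nat.card_le_card_of_injective
      (fun v : {v : ι → ℤ // v ∈ bx b H ∧ ∃ s : J → ℤ, (∀ j, |(s j : ℝ)| ≤ X) ∧
        D s ≠ 0 ∧ ∀ p, P p → ¬ (p : ℤ) ∣ D s → (p : ℝ) ≤ Real.log H ^ (2 / θ) →
          (fun i => (v i : ZMod p)) ∉ G s p} =>
        (⟨v.1, hsub v.1 v.2⟩ : {v // v ∈ W.biUnion B}))
      (fun v v' h => Subtype.ext (congrArg (fun z => z.1) h))
  have hWc : (W.card : ℝ) ≤ (3 * X) ^ N := by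
    refine le_trans ?_ (card_small (J := J) X hX1)
    exact Nat.cast_le.2 (Finset.card_filter_le _ _)
  have hsum : ((W.biUnion B).card : ℝ) ≤
      W.card * ((2 * (H : ℝ) + 1) ^ Fintype.card ι * (H : ℝ) ^ (-δ₁)) := by
    calc ((W.biUnion B).card : ℝ) ≤ ((∑ w ∈ W, (B w).card : ℕ) : ℝ) := by
          exact_mod_cast Finset.card_biUnion_le
      _ = ∑ w ∈ W, ((B w).card : ℝ) := by push_cast; rfl
      _ ≤ ∑ _w ∈ W, ((2 * (H : ℝ) + 1) ^ Fintype.card ι * (H : ℝ) ^ (-δ₁)) :=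
          Finset.sum_le_sum hB
      _ = _ := by rw [Finset.sum_const, nsmul_eq_mul]
  have hS : (0 : ℝ) ≤ (2 * (H : ℝ) + 1) ^ Fintype.card ι := by positivity
  have hpow : (3 * X) ^ N * (H : ℝ) ^ (-δ₁) ≤ (H : ℝ) ^ (-δ) := by
    have h1 := hH₂ H hHH₂
    have h2 : X ^ N = (H : ℝ) ^ (δ * N) := by
      rw [hX, ← Real.rpow_natCast, ← Real.rpow_mul hHr0.le]
    rw [mul_pow, h2]
    calc (3 : ℝ) ^ N * (H : ℝ) ^ (δ * N) * (H : ℝ) ^ (-δ₁) ≤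
          (H : ℝ) ^ (δ₁ / 2) * (H : ℝ) ^ (δ * N) * (H : ℝ) ^ (-δ₁) := by gcongr
      _ = (H : ℝ) ^ (δ₁ / 2 + δ * N + -δ₁) := by
          rw [Real.rpow_add hHr0, Real.rpow_add hHr0]
      _ = (H : ℝ) ^ (-δ) := by
          congr 1
          rw [hδ]
          field_simp
          ring
  calc (Nat.card {v : ι → ℤ // v ∈ bx b H ∧ ∃ s : J → ℤ, (∀ j, |(s j : ℝ)| ≤ X) ∧
        D s ≠ 0 ∧ ∀ p, P p → ¬ (p : ℤ) ∣ D s → (p : ℝ) ≤ Real.log H ^ (2 / θ) →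
          (fun i => (v i : ZMod p)) ∉ G s p} : ℝ) ≤ ((W.biUnion B).card : ℝ) := by
        exact_mod_cast hfin
    _ ≤ W.card * ((2 * (H : ℝ) + 1) ^ Fintype.card ι * (H : ℝ) ^ (-δ₁)) := hsum
    _ ≤ (3 * X) ^ N * ((2 * (H : ℝ) + 1) ^ Fintype.card ι * (H : ℝ) ^ (-δ₁)) := by
        gcongr
    _ = (2 * (H : ℝ) + 1) ^ Fintype.card ι * ((3 * X) ^ N * (H : ℝ) ^ (-δ₁)) := by
        ring
    _ ≤ _ := mul_le_mul_of_nonneg_left hpow hS


end Pool.Agent.K3h11.MK
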