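import Pool.Agent.K3h11.MK.Mk2
import Pool.Agent.K3h11.MK.Sv

set_option autoImplicit false

/-!
# Markov chains with random transition matrices: boxes (helper11)
-/

namespace Pool.Agent.K3h11.MK
open Matrix Pool.Agent.H884R2.Sko Pool.Agent.H684R3.Smo Pool.Agent.R77.Orb Finset
open Pool.Agent.TH838.SK (ev1 primes_one)

/-- the matrix `M / N` over a field -/
def scl (F : Type*) [Field F] {d : ℕ} (N : ℕ) (M : Matrix (Fin d) (Fin d) ℤ) :
    Matrix (Fin d) (Fin d) F := (N : F)⁻¹ • M.map (Int.cast : ℤ → F)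

/-- the numerator of the value of the polynomial at the window -/
def numer {d D r : ℕ} (N : ℕ) (M : Matrix (Fin d) (Fin d) ℤ) (μ : Fin d → ℤ)
    (c : (Fin (D + 1) × Fin d → Fin (r + 1)) → ℤ) (n : ℕ) : ℤ :=
  ∑ m, c m * ∏ x, (((N : ℤ) ^ (n + (x.1 : ℕ))) ^ (r - (m x : ℕ)) *
    ((μ ᵥ* (M ^ (n + (x.1 : ℕ)))) x.2) ^ (m x : ℕ))

theorem clear {F : Type*} [Field F] {d D r : ℕ} (N : ℕ) (hN : (N : F) ≠ 0)
    (M : Matrix (Fin d) (Fin d) ℤ) (μ : Fin d → ℤ)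
    (c : (Fin (D + 1) × Fin d → Fin (r + 1)) → ℤ) (n : ℕ) :
    (∏ x : Fin (D + 1) × Fin d, ((N : F) ^ (n + (x.1 : ℕ))) ^ r) *
      (∑ m, (c m : F) * ∏ x, (win D (scl F N M) (fun i => (μ i : F)) n x) ^ (m x : ℕ)) =
      ((numer N M μ c n : ℤ) : F) := by
  have hwin : ∀ x : Fin (D + 1) × Fin d, win D (scl F N M) (fun i => (μ i : F)) n x =
      ((N : F) ^ (n + (x.1 : ℕ)))⁻¹ * (((μ ᵥ* (M ^ (n + (x.1 : ℕ)))) x.2 : ℤ) : F) := by
    intro x
    unfold win scl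
    rw [smul_pow, Matrix.vecMul_smul, Pi.smul_apply, smul_eq_mul, inv_pow]
    congr 1
    have h3 := RingHom.map_vecMul (Int.castRingHom F) (M ^ (n + (x.1 : ℕ))) μ x.2
    have h4 : (M ^ (n + (x.1 : ℕ))).map (Int.castRingHom F) =
        (M.map (Int.castRingHom F)) ^ (n + (x.1 : ℕ)) := by
      have := map_pow ((Int.castRingHom F).mapMatrix (m := Fin d)) M (n + (x.1 : ℕ))
      simpa using this
    rw [h4] at h3
    exact h3.symm
  unfold numer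
  push_cast
  rw [Finset.mul_sum]
  refine Finset.sum_congr rfl fun m _ => ?_
  rw [mul_left_comm, ← Finset.prod_mul_distrib]
  congr 1
  refine Finset.prod_congr rfl fun x _ => ?_
  rw [hwin]
  have hNx : ((N : F) ^ (n + (x.1 : ℕ))) ≠ 0 := pow_ne_zero _ hN
  set a := (N : F) ^ (n + (x.1 : ℕ)) with ha
  have hm : (m x : ℕ) ≤ r := by have := (m x).2; omega
  have h1 : a ^ r = a ^ (r - (m x : ℕ)) * a ^ (m x : ℕ) := by
    rw [← pow_add, Nat.sub_add_cancel hm]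
  rw [h1, mul_pow, mul_assoc, ← mul_assoc (a ^ (m x : ℕ)), ← mul_pow, mul_inv_cancel₀ hNx,
    one_pow, one_mul]

/-- a certificate: a prime `p ≤ Y` which does not divide `N`, modulo which the windows have period
`p - 1` and the polynomial is never zero on them -/
def Cert {d D r : ℕ} (Y : ℝ) (N : ℕ) (M : Matrix (Fin d) (Fin d) ℤ) (μ : Fin d → ℤ)
    (c : (Fin (D + 1) × Fin d → Fin (r + 1)) → ℤ) : Prop :=
  ∃ p : ℕ, ∃ _ : Fact p.Prime, (p : ℝ) ≤ Y ∧ ¬ p ∣ N ∧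
    (∀ n, win D (scl (ZMod p) N M) (fun i => (μ i : ZMod p)) (n + (p - 1)) =
      win D (scl (ZMod p) N M) (fun i => (μ i : ZMod p)) n) ∧
    ∀ n, ∑ m, (c m : ZMod p) *
      ∏ x, (win D (scl (ZMod p) N M) (fun i => (μ i : ZMod p)) n x) ^ (m x : ℕ) ≠ 0

theorem Cert.ne_zero {d D r : ℕ} {Y : ℝ} {N : ℕ} {M : Matrix (Fin d) (Fin d) ℤ} {μ : Fin d → ℤ}
    {c : (Fin (D + 1) × Fin d → Fin (r + 1)) → ℤ} (hN : N ≠ 0) (h : Cert Y N M μ c) (n : ℕ) :
    ∑ m, (c m : ℚ) * ∏ x, (win D (scl ℚ N M) (fun i => (μ i : ℚ)) n x) ^ (m x : ℕ) ≠ 0 := by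
  obtain ⟨p, hp, -, hpN, -, h2⟩ := h
  intro h0
  have h3 := clear (F := ℚ) N (by exact_mod_cast hN) M μ c n
  rw [h0, mul_zero] at h3
  have h4 : numer N M μ c n = 0 := by exact_mod_cast h3.symm
  have hNp : (N : ZMod p) ≠ 0 := by
    intro h5
    exact hpN ((ZMod.natCast_eq_zero_iff _ _).1 h5)
  have h5 := clear (F := ZMod p) N hNp M μ c n
  rw [h4, Int.cast_zero, mul_eq_zero] at h5
  rcases h5 with h5 | h5
  · exact Finset.prod_ne_zero_iff.2 (fun x _ => pow_ne_zero _ (pow_ne_zero _ hNp)) h5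
  · exact h2 n h5

/-- all small polynomials of the windows are certified to be nonzero -/
def GenP {d : ℕ} (D r : ℕ) (X Y : ℝ) (N : ℕ) (M : Matrix (Fin d) (Fin d) ℤ) : Prop :=
  ∀ (μ : Fin d → ℤ) (c : (Fin (D + 1) × Fin d → Fin (r + 1)) → ℤ),
    (∀ i, |((μ i : ℤ) : ℝ)| ≤ X) → (∀ m, |((c m : ℤ) : ℝ)| ≤ X) → ∑ i, μ i ≠ 0 →
    ∑ m, c m * ∏ x : Fin (D + 1) × Fin d, μ x.2 ^ (m x : ℕ) ≠ 0 → Cert Y N M μ c

theorem map_mk {R S : Type*} [CommRing R] [CommRing S] (φ : R →+* S) {e : ℕ} (N : R)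
    (v : Fin (e + 1) × Fin e → R) : (mk N v).map φ = mk (φ N) (fun x => φ (v x)) := by
  ext i j
  rw [Matrix.map_apply]
  refine i.succAboveCases ?_ (fun k => ?_) j
  · rw [mk_diag, mk_diag, map_sub, map_sum]
  · rw [mk_off, mk_off]

/-- the index type of the parameters -/
abbrev Jx (e D r : ℕ) : Type := Fin (e + 1) ⊕ (Fin (D + 1) × Fin (e + 1) → Fin (r + 1))

/-- the number whose prime divisors are excluded -/
def Dd {e D r : ℕ} (N : ℕ) (s : Jx e D r → ℤ) : ℤ :=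
  (N : ℤ) * (∑ i : Fin (e + 1), s (Sum.inl i)) *
    (∑ m, s (Sum.inr m) * ∏ x : Fin (D + 1) × Fin (e + 1), s (Sum.inl x.2) ^ (m x : ℕ))

open Classical in
/-- the residue classes -/
def Gs {e D r : ℕ} (N : ℕ) (s : Jx e D r → ℤ) (p : ℕ) : Set (Fin (e + 1) × Fin e → ZMod p) :=
  {v | GoodK (D := D) ((N : ZMod p)⁻¹ • mk (N : ZMod p) v) (fun i => (s (Sum.inl i) : ZMod p))
    (fun m => (s (Sum.inr m) : ZMod p))}

theorem Dd_bound {e D r : ℕ} (N : ℕ) (c : ℝ) (H : ℕ) (hH : 1 ≤ H)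
    (hN : (N : ℝ) ≤ (H : ℝ) ^ c)
    (hH2 : ((e : ℝ) + 1) * ((r : ℝ) + 1) ^ ((D + 1) * (e + 1)) ≤ H)
    (s : Jx e D r → ℤ) (hs : ∀ j, |(s j : ℝ)| ≤ H) :
    |(Dd N s : ℝ)| ≤ (H : ℝ) ^ (c + ((3 + (D + 1) * (e + 1) * r : ℕ) : ℝ)) := by
  have hHr : (1 : ℝ) ≤ H := by exact_mod_cast hH
  have hH0 : (0 : ℝ) < H := by linarith
  have h1 : |((∑ i : Fin (e + 1), s (Sum.inl i) : ℤ) : ℝ)| ≤ ((e : ℝ) + 1) * H := by
    push_cast
    refine (Finset.abs_sum_le_sum_abs _ _).trans ?_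
    calc ∑ i : Fin (e + 1), |(s (Sum.inl i) : ℝ)| ≤ ∑ _i : Fin (e + 1), (H : ℝ) :=
          Finset.sum_le_sum fun i _ => hs _
      _ = ((e : ℝ) + 1) * H := by
          rw [Finset.sum_const, Finset.card_univ, Fintype.card_fin, nsmul_eq_mul]; push_cast; ring
  have h2 : |((∑ m, s (Sum.inr m) *
      ∏ x : Fin (D + 1) × Fin (e + 1), s (Sum.inl x.2) ^ (m x : ℕ) : ℤ) : ℝ)| ≤
      ((r : ℝ) + 1) ^ ((D + 1) * (e + 1)) * (H * (H : ℝ) ^ ((D + 1) * (e + 1) * r)) := by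
    push_cast
    refine (Finset.abs_sum_le_sum_abs _ _).trans ?_
    calc ∑ m : Fin (D + 1) × Fin (e + 1) → Fin (r + 1), |(s (Sum.inr m) : ℝ) *
          ∏ x : Fin (D + 1) × Fin (e + 1), (s (Sum.inl x.2) : ℝ) ^ (m x : ℕ)|
        ≤ ∑ _m : Fin (D + 1) × Fin (e + 1) → Fin (r + 1),
          (H * (H : ℝ) ^ ((D + 1) * (e + 1) * r)) := by
          refine Finset.sum_le_sum fun m _ => ?_
          rw [abs_mul, Finset.abs_prod]
          refine mul_le_mul (hs _) ?_ (Finset.prod_nonneg fun _ _ => abs_nonneg _) hH0.le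
          calc ∏ x : Fin (D + 1) × Fin (e + 1), |(s (Sum.inl x.2) : ℝ) ^ (m x : ℕ)|
              ≤ ∏ _x : Fin (D + 1) × Fin (e + 1), (H : ℝ) ^ r := by
                refine Finset.prod_le_prod (fun _ _ => abs_nonneg _) fun x _ => ?_
                rw [abs_pow]
                calc |(s (Sum.inl x.2) : ℝ)| ^ (m x : ℕ) ≤ (H : ℝ) ^ (m x : ℕ) :=
                      pow_le_pow_left₀ (abs_nonneg _) (hs _) _
                  _ ≤ (H : ℝ) ^ r := pow_le_pow_right₀ hHr (by have := (m x).2; omega)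
            _ = (H : ℝ) ^ ((D + 1) * (e + 1) * r) := by
                rw [Finset.prod_const, Finset.card_univ, ← pow_mul]
                congr 1
                simp; ring
      _ = _ := by
          rw [Finset.sum_const, Finset.card_univ, nsmul_eq_mul]
          congr 1
          simp
  unfold Dd
  rw [Int.cast_mul, Int.cast_mul, abs_mul, abs_mul]
  have h5 : |(((N : ℕ) : ℤ) : ℝ)| ≤ (H : ℝ) ^ c := by
    rw [Int.cast_natCast, abs_of_nonneg (Nat.cast_nonneg N)]; exact hN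
  calc _ ≤ (H : ℝ) ^ c * (((e : ℝ) + 1) * H) *
        (((r : ℝ) + 1) ^ ((D + 1) * (e + 1)) * (H * (H : ℝ) ^ ((D + 1) * (e + 1) * r))) := by
        gcongr
    _ = (H : ℝ) ^ c * ((((e : ℝ) + 1) * ((r : ℝ) + 1) ^ ((D + 1) * (e + 1))) *
        ((H : ℝ) ^ 2 * (H : ℝ) ^ ((D + 1) * (e + 1) * r))) := by ring
    _ ≤ (H : ℝ) ^ c * (H * ((H : ℝ) ^ 2 * (H : ℝ) ^ ((D + 1) * (e + 1) * r))) := by gcongr
    _ = (H : ℝ) ^ c * (H : ℝ) ^ ((3 + (D + 1) * (e + 1) * r : ℕ) : ℝ) := by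
        congr 1
        rw [Real.rpow_natCast, pow_add]; ring
    _ = _ := by rw [← Real.rpow_add hH0]

theorem card_mono {α : Type*} (P Q : α → Prop) (h : ∀ v, P v → Q v) (hf : Finite {v // Q v}) :
    Nat.card {v // P v} ≤ Nat.card {v // Q v} :=
  Nat.card_le_card_of_injective (fun v => (⟨v.1, h v.1 v.2⟩ : {v // Q v}))
    (fun _ _ h => Subtype.ext (congrArg (fun z : {v // Q v} => z.1) h))

theorem box (e D r : ℕ) (he : 1 ≤ e) : ∃ A : ℝ, 0 < A ∧ ∀ (c : ℝ), 0 ≤ c →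
    ∃ δ : ℝ, 0 < δ ∧ ∃ H₀ : ℕ, ∀ H : ℕ, H₀ ≤ H → ∀ N : ℕ, 1 ≤ N → (N : ℝ) ≤ (H : ℝ) ^ c →
      ∀ b : Fin (e + 1) × Fin e → ℤ,
      (Nat.card {v : Fin (e + 1) × Fin e → ℤ // v ∈ bx b H ∧
        ¬ GenP D r ((H : ℝ) ^ δ) (Real.log H ^ A) N (mk (N : ℤ) v)} : ℝ) ≤
        (2 * (H : ℝ) + 1) ^ ((e + 1) * e) * (H : ℝ) ^ (-δ) := by
  classical
  set l : ℕ := max 1 (2 * ((D + 1) * (e + 1) * r)) with hl
  have hl1 : 1 ≤ l := le_max_left _ _
  obtain ⟨κ, hκ, hden⟩ := densK e D r l he hl1 (le_max_right _ _)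
  obtain ⟨θ, hθ, hcount⟩ := primes_one l hl1 (2 * l * e + 2)
  refine ⟨2 / θ, by positivity, fun c hc => ?_⟩
  obtain ⟨δ, hδ, H₁, hmain⟩ := sieve_unif2 (Fin (e + 1) × Fin e) (Jx e D r)
    (fun p => p.Prime ∧ 2 * l * e + 2 ≤ p ∧ l ∣ p - 1) κ θ
    (c + ((3 + (D + 1) * (e + 1) * r : ℕ) : ℝ)) hκ hθ (by positivity) hcount
    (fun p hp => hp.1)
  have hcard : Fintype.card (Fin (e + 1) × Fin e) = (e + 1) * e := by simp
  rw [hcard] at hmain
  set H₂ : ℕ := ⌈((e : ℝ) + 1) * ((r : ℝ) + 1) ^ ((D + 1) * (e + 1))⌉₊ with hH₂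
  refine ⟨δ, hδ, max 1 (max H₁ H₂), fun H hH N hN1 hN b => ?_⟩
  have hH1 : 1 ≤ H := (le_max_left _ _).trans hH
  have hHH₁ : H₁ ≤ H := (le_max_left _ _).trans ((le_max_right _ _).trans hH)
  have hHH₂ : H₂ ≤ H := (le_max_right _ _).trans ((le_max_right _ _).trans hH)
  have hbig : ((e : ℝ) + 1) * ((r : ℝ) + 1) ^ ((D + 1) * (e + 1)) ≤ H :=
    (Nat.le_ceil _).trans (Nat.cast_le.2 hHH₂)
  have h1 := hmain H hHH₁ (Dd N) (fun s hs => Dd_bound N c H hH1 hN hbig s hs) (Gs N) ?_ b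
  · refine le_trans ?_ h1
    refine Nat.cast_le.2 (card_mono _ _ ?_ (finite_sub _ _ _))
    rintro v ⟨hv, hgen⟩
    refine ⟨hv, ?_⟩
    unfold GenP at hgen
    push Not at hgen
    obtain ⟨μ, f, hμ, hf, hsum, hne, hcert⟩ := hgen
    refine ⟨Sum.elim μ f, ?_, ?_, ?_⟩
    · rintro (i | m)
      · exact hμ i
      · exact hf m
    · unfold Dd
      simp only [Sum.elim_inl, Sum.elim_inr]
      have h3 : (N : ℤ) ≠ 0 := by exact_mod_cast (by omega : N ≠ 0)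
      exact mul_ne_zero (mul_ne_zero h3 hsum) hne
    · intro p hp hdvd hpY hmem
      apply hcert
      have : Fact p.Prime := ⟨hp.1⟩
      have hscl : scl (ZMod p) N (mk (N : ℤ) v) =
          (N : ZMod p)⁻¹ • mk (N : ZMod p) (fun i => (v i : ZMod p)) := by
        unfold scl
        have h2 := map_mk (Int.castRingHom (ZMod p)) (N : ℤ) v
        congr 1
        simpa using h2
      have hpN : ¬ p ∣ N := by
        intro h3
        apply hdvd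
        unfold Dd
        rw [mul_assoc]
        exact Dvd.dvd.mul_right (by exact_mod_cast h3) _
      refine ⟨p, this, hpY, hpN, ?_, ?_⟩
      · rw [hscl]
        exact hmem.1
      · rw [hscl]
        exact hmem.2
  · rintro s p ⟨hp, hpe, hlp⟩ hdvd
    have : Fact p.Prime := ⟨hp⟩
    have h2 : ((Dd N s : ℤ) : ZMod p) ≠ 0 := by
      intro h3
      exact hdvd ((ZMod.intCast_zmod_eq_zero_iff_dvd _ _).1 h3)
    unfold Dd at h2
    push_cast at h2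
    have h3 := left_ne_zero_of_mul h2
    have h4 := right_ne_zero_of_mul h2
    have h5 := left_ne_zero_of_mul h3
    have h6 := right_ne_zero_of_mul h3
    exact hden p hp hpe hlp (N : ZMod p) _ _ _ (inv_mul_cancel₀ h5) h6 h4

end Pool.Agent.K3h11.MK
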