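import Pool.Agent.R77.Orb.Count
import Pool.Agent.TH838.SK.Main

set_option autoImplicit false

/-!
# Markov chains modulo a prime: counting (helper11)

Most of the counting of matrices modulo `p` follows `Pool.Agent.R77.Orb.Count` (helper77).
-/

namespace Pool.Agent.K3h11.MK
open Matrix Pool.Agent.H884R2.Sko Pool.Agent.H684R3.Smo Pool.Agent.R77.Orb Finset

section field
variable {K : Type*} [Field K] {d : ℕ}

/-- the sums `x + M x + ... + M ^ (n - 1) x` -/
def tsum {R : Type*} [CommRing R] {d : ℕ} (M : Matrix (Fin d) (Fin d) R) (x : Fin d → R) (n : ℕ) :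
    Fin d → R := ∑ k ∈ range n, (M ^ k) *ᵥ x

theorem tsum_zero (M : Matrix (Fin d) (Fin d) K) (x : Fin d → K) : tsum M x 0 = 0 := by
  unfold tsum; simp

theorem tsum_succ (M : Matrix (Fin d) (Fin d) K) (x : Fin d → K) (n : ℕ) :
    tsum M x (n + 1) = tsum M x n + (M ^ n) *ᵥ x := by
  unfold tsum; rw [Finset.sum_range_succ]

theorem tsum_succ' (M : Matrix (Fin d) (Fin d) K) (x : Fin d → K) (n : ℕ) :
    tsum M x (n + 1) = x + M *ᵥ tsum M x n := by
  unfold tsum
  rw [Finset.sum_range_succ', Matrix.mulVec_sum, pow_zero, Matrix.one_mulVec, add_comm]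
  congr 1
  refine Finset.sum_congr rfl fun k _ => ?_
  rw [Matrix.mulVec_mulVec, ← pow_succ']

theorem tsum_smul (M : Matrix (Fin d) (Fin d) K) (x : Fin d → K) (s : K) (n : ℕ) :
    tsum M (s • x) n = s • tsum M x n := by
  unfold tsum
  rw [Finset.smul_sum]
  exact Finset.sum_congr rfl fun k _ => Matrix.mulVec_smul _ _ _

theorem tsum_conj (g : GL (Fin d) K) (M : Matrix (Fin d) (Fin d) K) (x : Fin d → K) (n : ℕ) :
    tsum ((g : Matrix _ _ K) * M * ((g⁻¹ : GL (Fin d) K) : Matrix _ _ K))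
      ((g : Matrix _ _ K) *ᵥ x) n = (g : Matrix _ _ K) *ᵥ tsum M x n := by
  unfold tsum
  rw [Matrix.mulVec_sum]
  refine Finset.sum_congr rfl fun k _ => ?_
  have h : ((g : Matrix _ _ K) * M * ((g⁻¹ : GL (Fin d) K) : Matrix _ _ K)) ^ k =
      (g : Matrix _ _ K) * M ^ k * ((g⁻¹ : GL (Fin d) K) : Matrix _ _ K) := Units.conj_pow g M k
  have hinv : ((g⁻¹ : GL (Fin d) K) : Matrix (Fin d) (Fin d) K) * (g : Matrix _ _ K) = 1 :=
    g.inv_mul
  rw [h, ← Matrix.mulVec_mulVec, Matrix.mulVec_mulVec x, hinv, Matrix.one_mulVec,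
    Matrix.mulVec_mulVec]

/-- the partial sums have period `T` if the `T`-th one vanishes -/
theorem tsum_period (M : Matrix (Fin d) (Fin d) K) (x : Fin d → K) (T : ℕ)
    (h : tsum M x T = 0) (n : ℕ) : tsum M x (n + T) = tsum M x n := by
  induction n with
  | zero => rw [Nat.zero_add, h, tsum_zero]
  | succ n ih =>
    rw [show n + 1 + T = (n + T) + 1 by ring, tsum_succ', ih, ← tsum_succ']

theorem cmp_rec (c : Fin d → K) (hd : 1 ≤ d) (n : ℕ) :
    (cmp c ^ (n + d)) *ᵥ Pi.single (⟨0, hd⟩ : Fin d) 1 =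
      ∑ i : Fin d, c i • ((cmp c ^ (n + (i : ℕ))) *ᵥ Pi.single (⟨0, hd⟩ : Fin d) 1) := by
  rw [pow_add, ← Matrix.mulVec_mulVec, cmp_pow_d c hd]
  have h2 : (cmp c ^ n) *ᵥ c = (cmp c ^ n) *ᵥ ∑ i, c i • (Pi.single i 1 : Fin d → K) :=
    congrArg (fun v => (cmp c ^ n) *ᵥ v) (vec_eq_sum c)
  rw [h2, Matrix.mulVec_sum]
  refine Finset.sum_congr rfl fun i _ => ?_
  rw [Matrix.mulVec_smul, pow_add, ← Matrix.mulVec_mulVec, cmp_pow c hd i i.2]

/-- the partial sums of a sequence of vectors with a shift -/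
theorem cmp_tsum (S : Finset K) (T : ℕ) (hd : 1 ≤ d) (hS : S.card = d)
    (hT : ∀ a ∈ S, a ^ T = 1) (h1 : (1 : K) ∉ S) :
    tsum (cmp (coef d S)) (Pi.single (⟨0, hd⟩ : Fin d) 1) T = 0 := by
  set c := coef d S with hc
  set x : Fin d → K := Pi.single (⟨0, hd⟩ : Fin d) 1 with hx
  -- periodicity
  have hper : ∀ n, (cmp c ^ (n + T)) *ᵥ x = (cmp c ^ n) *ᵥ x := by
    intro n
    ext i
    have e1 := cmp_orb c (Pi.single i 1) hd (n + T)
    have e2 := cmp_orb c (Pi.single i 1) hd n
    rw [hc, seq_periodic d T S hS hT, ← hc, ← e2] at e1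
    simp only [orb, single_dotProduct, one_mul] at e1
    exact e1
  -- shifted sums
  have hshift : ∀ m, ∑ k ∈ range T, (cmp c ^ (k + m)) *ᵥ x = tsum (cmp c) x T := by
    intro m
    induction m with
    | zero => rfl
    | succ m ih =>
      rw [← ih]
      have h2 := Finset.sum_range_succ (fun k => (cmp c ^ (k + m)) *ᵥ x) T
      have h3 := Finset.sum_range_succ' (fun k => (cmp c ^ (k + m)) *ᵥ x) T
      rw [h2] at h3
      have h4 : (cmp c ^ (T + m)) *ᵥ x = (cmp c ^ (0 + m)) *ᵥ x := by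
        rw [add_comm T m, hper, Nat.zero_add]
      rw [h4] at h3
      have h5 := add_right_cancel h3
      rw [h5]
      refine Finset.sum_congr rfl fun k _ => ?_
      rw [show k + (m + 1) = k + 1 + m by ring]
  -- the equation
  have heq : tsum (cmp c) x T = (∑ i : Fin d, c i) • tsum (cmp c) x T := by
    conv_lhs => rw [← hshift d]
    rw [Finset.sum_smul]
    calc ∑ k ∈ range T, (cmp c ^ (k + d)) *ᵥ x
        = ∑ k ∈ range T, ∑ i : Fin d, c i • ((cmp c ^ (k + (i : ℕ))) *ᵥ x) :=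
          Finset.sum_congr rfl fun k _ => cmp_rec c hd k
      _ = ∑ i : Fin d, ∑ k ∈ range T, c i • ((cmp c ^ (k + (i : ℕ))) *ᵥ x) :=
          Finset.sum_comm
      _ = _ := by
          refine Finset.sum_congr rfl fun i _ => ?_
          rw [← Finset.smul_sum, hshift]
  have hne : (1 : K) - ∑ i : Fin d, c i ≠ 0 := by
    have e0 : (poly S).eval 1 = 1 - ∑ i : Fin d, c i := by
      rw [Polynomial.eval_eq_sum_range, poly_natDegree, hS, Finset.sum_range_succ]
      have e1 : (poly S).coeff d = 1 := by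
        rw [← hS, ← poly_natDegree]; exact poly_monic S
      rw [e1, hc]
      unfold coef
      rw [Finset.sum_range]
      simp [add_comm]
    rw [← e0]
    unfold poly
    rw [Polynomial.eval_prod, Finset.prod_ne_zero_iff]
    intro a ha
    rw [Polynomial.eval_sub, Polynomial.eval_X, Polynomial.eval_C, sub_ne_zero]
    rintro rfl
    exact h1 ha
  have h6 : ((1 : K) - ∑ i : Fin d, c i) • tsum (cmp c) x T = 0 := by
    rw [sub_smul, one_smul, ← heq, sub_self]
  exact (smul_eq_zero.1 h6).resolve_left hne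

theorem tsum_add (M : Matrix (Fin d) (Fin d) K) (x y : Fin d → K) (n : ℕ) :
    tsum M (x + y) n = tsum M x n + tsum M y n := by
  unfold tsum
  rw [← Finset.sum_add_distrib]
  exact Finset.sum_congr rfl fun k _ => Matrix.mulVec_add _ _ _

theorem tsum_pow (M : Matrix (Fin d) (Fin d) K) (x : Fin d → K) (i n : ℕ) :
    tsum M ((M ^ i) *ᵥ x) n = (M ^ i) *ᵥ tsum M x n := by
  unfold tsum
  rw [Matrix.mulVec_sum]
  refine Finset.sum_congr rfl fun k _ => ?_
  rw [Matrix.mulVec_mulVec, Matrix.mulVec_mulVec, ← pow_add, ← pow_add, add_comm]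

theorem tsum_finsum {ι : Type*} (s : Finset ι) (M : Matrix (Fin d) (Fin d) K)
    (x : ι → Fin d → K) (n : ℕ) : tsum M (∑ i ∈ s, x i) n = ∑ i ∈ s, tsum M (x i) n := by
  unfold tsum
  rw [Finset.sum_comm]
  exact Finset.sum_congr rfl fun k _ => Matrix.mulVec_sum _ _ _

/-- all partial sums of length `T` vanish -/
theorem cmp_tsum_all (S : Finset K) (T : ℕ) (hd : 1 ≤ d) (hS : S.card = d)
    (hT : ∀ a ∈ S, a ^ T = 1) (h1 : (1 : K) ∉ S) (x : Fin d → K) :
    tsum (cmp (coef d S)) x T = 0 := by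
  have h2 : x = ∑ i : Fin d, x i •
      ((cmp (coef d S) ^ (i : ℕ)) *ᵥ Pi.single (⟨0, hd⟩ : Fin d) 1) := by
    conv_lhs => rw [vec_eq_sum x]
    refine Finset.sum_congr rfl fun i _ => ?_
    rw [cmp_pow _ hd i i.2]
  rw [h2, tsum_finsum]
  refine Finset.sum_eq_zero fun i _ => ?_
  rw [tsum_smul, tsum_pow, cmp_tsum S T hd hS hT h1, Matrix.mulVec_zero, smul_zero]

end field

open Classical in
/-- many matrices for which the sums of `T` terms of all orbits vanish -/
theorem count_mat (p e : ℕ) [Fact p.Prime] (he : 1 ≤ e) (l T : ℕ) (hl : 1 ≤ l)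
    (hT : l * T = p - 1) (hp : 2 * l * e + 2 ≤ p) :
    p ^ e * Nat.card (GL (Fin e) (ZMod p)) ≤ (2 * l) ^ e * e.factorial *
      (Nat.card {M : Matrix (Fin e) (Fin e) (ZMod p) // ∀ x, tsum M x T = 0} * p ^ e) := by
  have : NeZero p := ⟨(Fact.out : p.Prime).ne_zero⟩
  obtain ⟨Q, hQ1, hQ2⟩ := Pool.Agent.TH838.SK.exists_powers p l T hl hT
  have hTe : p ≤ 2 * l * (T - 1 + 1 - e) := by
    have hle : e + 1 ≤ T := by
      by_contra hcon
      have h1 : l * T ≤ l * e := Nat.mul_le_mul_left _ (by omega)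
      have h2 : 2 * l * e = 2 * (l * e) := by ring
      omega
    have h3 : T - 1 + 1 - e = T - e := by omega
    rw [h3, Nat.mul_sub]
    have h4 : 2 * l * T = 2 * (l * T) := by ring
    omega
  set Q' := Q.erase 1 with hQ'
  have hQ'c : T - 1 ≤ Q'.card := by
    rw [← hQ1]; exact Finset.pred_card_le_card_erase
  set F := Q'.powersetCard e with hF
  have hchoose : p ^ e ≤ (2 * l) ^ e * e.factorial * F.card := by
    rw [hF, Finset.card_powersetCard]
    have h1 := Nat.pow_sub_le_descFactorial Q'.card e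
    rw [Nat.descFactorial_eq_factorial_mul_choose] at h1
    have h2 : 2 * l * (T - 1 + 1 - e) ≤ 2 * l * (Q'.card + 1 - e) :=
      Nat.mul_le_mul_left _ (by omega)
    calc p ^ e ≤ (2 * l * (Q'.card + 1 - e)) ^ e := Nat.pow_le_pow_left (hTe.trans h2) _
      _ = (2 * l) ^ e * (Q'.card + 1 - e) ^ e := by rw [mul_pow]
      _ ≤ (2 * l) ^ e * (e.factorial * Q'.card.choose e) := Nat.mul_le_mul_left _ h1
      _ = (2 * l) ^ e * e.factorial * Q'.card.choose e := by ring
  have hmem : ∀ S ∈ F, S.card = e ∧ (∀ a ∈ S, a ^ T = 1) ∧ (1 : ZMod p) ∉ S := by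
    intro S hS
    rw [hF, Finset.mem_powersetCard] at hS
    refine ⟨hS.2, fun a ha => hQ2 a (Finset.mem_of_mem_erase (hS.1 ha)), fun h => ?_⟩
    exact (Finset.mem_erase.1 (hS.1 h)).1 rfl
  have hcard : Nat.card (Fin e → ZMod p) = p ^ e := by
    rw [Nat.card_eq_fintype_card, Fintype.card_pi]
    simp [ZMod.card]
  have hinj : F.card * Nat.card (GL (Fin e) (ZMod p)) ≤
      Nat.card {M : Matrix (Fin e) (Fin e) (ZMod p) // ∀ x, tsum M x T = 0} * p ^ e := by
    rw [← Nat.card_eq_finsetCard, ← Nat.card_prod, ← hcard, ← Nat.card_prod]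
    refine Nat.card_le_card_of_injective (fun z : F × GL (Fin e) (ZMod p) =>
      (⟨(z.2 : Matrix (Fin e) (Fin e) (ZMod p)) * cmp (coef e z.1.1) *
        ((z.2⁻¹ : GL (Fin e) (ZMod p)) : Matrix (Fin e) (Fin e) (ZMod p)), ?_⟩,
        (z.2 : Matrix (Fin e) (Fin e) (ZMod p)) *ᵥ Pi.single (⟨0, he⟩ : Fin e) 1)) ?_
    · intro x
      obtain ⟨h1, h2, h3⟩ := hmem z.1.1 z.1.2
      have hinv : (z.2 : Matrix (Fin e) (Fin e) (ZMod p)) *
          ((z.2⁻¹ : GL (Fin e) (ZMod p)) : Matrix (Fin e) (Fin e) (ZMod p)) = 1 := z.2.mul_inv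
      have h4 := tsum_conj z.2 (cmp (coef e z.1.1))
        (((z.2⁻¹ : GL (Fin e) (ZMod p)) : Matrix (Fin e) (Fin e) (ZMod p)) *ᵥ x) T
      rw [Matrix.mulVec_mulVec, hinv, Matrix.one_mulVec, cmp_tsum_all z.1.1 T he h1 h2 h3,
        Matrix.mulVec_zero] at h4
      exact h4
    · intro z z' h
      simp only [Prod.mk.injEq, Subtype.mk.injEq] at h
      have h1 : tri he (coef e z.1.1, (0 : Fin e → ZMod p), z.2) =
          tri he (coef e z'.1.1, (0 : Fin e → ZMod p), z'.2) := by
        unfold tri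
        simp only [Prod.mk.injEq, Matrix.zero_vecMul, and_true]
        exact h
      have h2 := tri_inj he h1
      simp only [Prod.mk.injEq, true_and] at h2
      apply Prod.ext
      · apply Subtype.ext
        exact coef_inj (hmem z.1.1 z.1.2).1 (hmem z'.1.1 z'.1.2).1 h2.1
      · exact h2.2
  calc p ^ e * Nat.card (GL (Fin e) (ZMod p)) ≤
        (2 * l) ^ e * e.factorial * F.card * Nat.card (GL (Fin e) (ZMod p)) :=
          Nat.mul_le_mul_right _ hchoose
    _ = (2 * l) ^ e * e.factorial * (F.card * Nat.card (GL (Fin e) (ZMod p))) := by ring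
    _ ≤ _ := Nat.mul_le_mul_left _ hinj

/-- a positive proportion of the matrices is good -/
theorem densV (e l : ℕ) (he : 1 ≤ e) (hl : 1 ≤ l) : ∃ κ : ℝ, 0 < κ ∧ ∀ p : ℕ, p.Prime →
    2 * l * e + 2 ≤ p → ∀ T : ℕ, l * T = p - 1 → κ * (p : ℝ) ^ (e * e) ≤
      (Nat.card {M : Matrix (Fin e) (Fin e) (ZMod p) // ∀ x, tsum M x T = 0} : ℝ) := by
  have hl0 : (0 : ℝ) < l := by exact_mod_cast hl
  refine ⟨1 / (2 ^ e * ((2 * l) ^ e * e.factorial)), by positivity, fun p hp hpe T hT => ?_⟩
  have : Fact p.Prime := ⟨hp⟩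
  have hp0 : (0 : ℝ) < p := by exact_mod_cast hp.pos
  have h1 := count_mat p e he l T hl hT hpe
  have h3 := card_gl p e
  set c := Nat.card {M : Matrix (Fin e) (Fin e) (ZMod p) // ∀ x, tsum M x T = 0} with hc
  have h5 : Nat.card (GL (Fin e) (ZMod p)) ≤ (2 * l) ^ e * e.factorial * c := by
    have h6 : p ^ e * Nat.card (GL (Fin e) (ZMod p)) ≤
        p ^ e * ((2 * l) ^ e * e.factorial * c) := by
      refine h1.trans (le_of_eq ?_); ring
    exact Nat.le_of_mul_le_mul_left h6 (pow_pos hp.pos e)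
  have h7 : (Nat.card (GL (Fin e) (ZMod p)) : ℝ) ≤ (2 * l) ^ e * e.factorial * c := by
    exact_mod_cast h5
  rw [one_div, inv_mul_le_iff₀ (by positivity)]
  calc (p : ℝ) ^ (e * e) ≤ 2 ^ e * (Nat.card (GL (Fin e) (ZMod p)) : ℝ) := h3
    _ ≤ 2 ^ e * ((2 * l) ^ e * e.factorial * c) := by gcongr
    _ = _ := by ring

section line
open Pool.Agent.TH838.SK (ev1)

variable {V : Type} [Fintype V] [DecidableEq V] {r e : ℕ}

open Classical in
/-- a polynomial which is not zero at the base point has few zeros on a line -/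
theorem card_line (p : ℕ) [Fact p.Prime] (c : (V → Fin (r + 1)) → ZMod p) (α β : V → ZMod p)
    (h0 : ev1 c α ≠ 0) :
    ((univ : Finset (ZMod p)ˣ).filter
      (fun t : (ZMod p)ˣ => ev1 c (fun x => α x + (t : ZMod p) * β x) = 0)).card ≤ Fintype.card V * r := by
  set q : Polynomial (ZMod p) := ∑ m : V → Fin (r + 1), Polynomial.C (c m) *
    ∏ x, (Polynomial.C (α x) + Polynomial.C (β x) * Polynomial.X) ^ (m x : ℕ) with hq
  have hev : ∀ t : ZMod p, q.eval t = ev1 c (fun x => α x + t * β x) := by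
    intro t
    rw [hq, Polynomial.eval_finsetSum]
    unfold ev1
    refine Finset.sum_congr rfl fun m _ => ?_
    rw [Polynomial.eval_mul, Polynomial.eval_C, Polynomial.eval_prod]
    congr 1
    refine Finset.prod_congr rfl fun x _ => ?_
    rw [Polynomial.eval_pow, Polynomial.eval_add, Polynomial.eval_C, Polynomial.eval_mul,
      Polynomial.eval_C, Polynomial.eval_X, mul_comm (β x)]
  have hq0 : q ≠ 0 := by
    intro h
    apply h0
    have h1 := hev 0
    rw [h, Polynomial.eval_zero] at h1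
    simpa using h1.symm
  have hdeg : q.natDegree ≤ Fintype.card V * r := by
    rw [hq]
    refine Polynomial.natDegree_sum_le_of_forall_le _ _ fun m _ => ?_
    refine (Polynomial.natDegree_C_mul_le _ _).trans ?_
    refine (Polynomial.natDegree_prod_le _ _).trans ?_
    calc ∑ x, ((Polynomial.C (α x) + Polynomial.C (β x) * Polynomial.X) ^ (m x : ℕ)).natDegree
        ≤ ∑ _x : V, r := by
          refine Finset.sum_le_sum fun x _ => ?_
          refine Polynomial.natDegree_pow_le.trans ?_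
          have h1 : (Polynomial.C (α x) + Polynomial.C (β x) * Polynomial.X).natDegree ≤ 1 := by
            rw [add_comm]
            exact Polynomial.natDegree_linear_le
          have h2 : (m x : ℕ) ≤ r := by have := (m x).2; omega
          calc (m x : ℕ) * _ ≤ r * 1 := Nat.mul_le_mul h2 h1
            _ = r := mul_one r
      _ = Fintype.card V * r := by
          rw [Finset.sum_const, Finset.card_univ, smul_eq_mul]
  calc _ ≤ q.roots.toFinset.card := by
        refine Finset.card_le_card_of_injOn (fun t : (ZMod p)ˣ => (t : ZMod p)) ?_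
          (fun _ _ _ _ h => Units.ext h)
        intro t ht
        rw [Finset.mem_coe, Finset.mem_filter] at ht
        rw [Finset.mem_coe, Multiset.mem_toFinset, Polynomial.mem_roots hq0, Polynomial.IsRoot,
          hev]
        exact ht.2
    _ ≤ Multiset.card q.roots := Multiset.toFinset_card_le _
    _ ≤ q.natDegree := Polynomial.card_roots' q
    _ ≤ _ := hdeg

open Classical in
/-- the number of zeros of a polynomial in affine functionals -/
theorem card_zeros (p : ℕ) [Fact p.Prime] (c : (V → Fin (r + 1)) → ZMod p) (α : V → ZMod p)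
    (u : V → Fin e → ZMod p) (h0 : ev1 c α ≠ 0) :
    ((univ : Finset (Fin e → ZMod p)).filter
      (fun ω => ev1 c (fun x => α x + ω ⬝ᵥ u x) = 0)).card * (p - 1) ≤
      Fintype.card V * r * p ^ e := by
  have : NeZero p := ⟨(Fact.out : p.Prime).ne_zero⟩
  have hcard : Fintype.card (Fin e → ZMod p) = p ^ e := by
    rw [Fintype.card_pi]
    simp [ZMod.card]
  set Z := (univ : Finset (Fin e → ZMod p)).filter
      (fun ω => ev1 c (fun x => α x + ω ⬝ᵥ u x) = 0) with hZ
  have h1 : Z.card * (p - 1) = (Z ×ˢ (univ : Finset (ZMod p)ˣ)).card := by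
    rw [Finset.card_product, Finset.card_univ, ZMod.card_units]
  have h2 : (Z ×ˢ (univ : Finset (ZMod p)ˣ)).card ≤
      ((univ : Finset (Fin e → ZMod p)).sigma (fun w => (univ : Finset (ZMod p)ˣ).filter
        (fun t : (ZMod p)ˣ => ev1 c (fun x => α x + (t : ZMod p) * (w ⬝ᵥ u x)) = 0))).card := by
    refine Finset.card_le_card_of_injOn (fun z => ⟨((z.2⁻¹ : (ZMod p)ˣ) : ZMod p) • z.1, z.2⟩)
      ?_ ?_
    · intro z hz
      rw [Finset.mem_coe, Finset.mem_product, hZ, Finset.mem_filter] at hz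
      rw [Finset.mem_coe, Finset.mem_sigma, Finset.mem_filter]
      refine ⟨mem_univ _, mem_univ _, ?_⟩
      simp only
      rw [← hz.1.2]
      congr 1
      funext x
      rw [smul_dotProduct, smul_eq_mul, ← mul_assoc, Units.mul_inv, one_mul]
    · intro z _ z' _ h
      simp only [Sigma.mk.injEq, heq_eq_eq] at h
      obtain ⟨h3, h4⟩ := h
      rw [h4] at h3
      refine Prod.ext ?_ h4
      have h5 := congrArg (fun w => ((z'.2 : (ZMod p)ˣ) : ZMod p) • w) h3
      simp only [smul_smul, Units.mul_inv, one_smul] at h5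
      exact h5
  have h3 : ((univ : Finset (Fin e → ZMod p)).sigma (fun w => (univ : Finset (ZMod p)ˣ).filter
        (fun t : (ZMod p)ˣ => ev1 c (fun x => α x + (t : ZMod p) * (w ⬝ᵥ u x)) = 0))).card ≤
      Fintype.card V * r * p ^ e := by
    rw [Finset.card_sigma]
    calc _ ≤ ∑ _w : Fin e → ZMod p, Fintype.card V * r :=
          Finset.sum_le_sum fun w _ => card_line p c α (fun x => w ⬝ᵥ u x) h0
      _ = _ := by rw [Finset.sum_const, Finset.card_univ, hcard, smul_eq_mul, mul_comm]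
  rw [h1]
  exact h2.trans h3

/-- for half of the functionals the polynomial is never zero -/
theorem count_omega (p : ℕ) [Fact p.Prime] (l T : ℕ) (hl : 2 * (Fintype.card V * r) ≤ l)
    (hT : l * T = p - 1) (c : (V → Fin (r + 1)) → ZMod p) (α : V → ZMod p)
    (v : ℕ → V → Fin e → ZMod p) (hv : ∀ n, v (n + T) = v n) (h0 : ev1 c α ≠ 0) :
    p ^ e ≤ 2 * Nat.card {ω : Fin e → ZMod p //
      ∀ n, ev1 c (fun x => α x + ω ⬝ᵥ v n x) ≠ 0} := by
  classical
  have : NeZero p := ⟨(Fact.out : p.Prime).ne_zero⟩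
  have hp2 : 2 ≤ p := (Fact.out : p.Prime).two_le
  have hcard : Fintype.card (Fin e → ZMod p) = p ^ e := by
    rw [Fintype.card_pi]
    simp [ZMod.card]
  set bad := (univ : Finset (Fin e → ZMod p)).filter
    (fun ω => ¬ ∀ n, ev1 c (fun x => α x + ω ⬝ᵥ v n x) ≠ 0) with hbad
  have hTpos : 0 < T := by
    rcases Nat.eq_zero_or_pos T with h | h
    · rw [h] at hT
      omega
    · exact h
  have hmod : ∀ n, v n = v (n % T) := by
    intro n
    have h1 : ∀ k m, v (m + k * T) = v m := by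
      intro k
      induction k with
      | zero => intro m; simp
      | succ k ih =>
        intro m
        rw [show m + (k + 1) * T = (m + k * T) + T by ring, hv, ih]
    conv_lhs => rw [← Nat.mod_add_div n T, mul_comm T]
    exact h1 _ _
  have hsub : bad ⊆ (range T).biUnion (fun n => (univ : Finset (Fin e → ZMod p)).filter
      (fun ω => ev1 c (fun x => α x + ω ⬝ᵥ v n x) = 0)) := by
    intro ω hω
    rw [hbad, Finset.mem_filter] at hω
    have h2 := hω.2
    push Not at h2
    obtain ⟨n, hn⟩ := h2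
    rw [Finset.mem_biUnion]
    refine ⟨n % T, Finset.mem_range.2 (Nat.mod_lt _ hTpos), ?_⟩
    rw [Finset.mem_filter]
    exact ⟨mem_univ _, by rw [← hmod]; exact hn⟩
  have h3 : bad.card * (p - 1) ≤ T * (Fintype.card V * r * p ^ e) := by
    calc bad.card * (p - 1) ≤ (∑ n ∈ range T, ((univ : Finset (Fin e → ZMod p)).filter
          (fun ω => ev1 c (fun x => α x + ω ⬝ᵥ v n x) = 0)).card) * (p - 1) :=
          Nat.mul_le_mul_right _ ((Finset.card_le_card hsub).trans Finset.card_biUnion_le)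
      _ = ∑ n ∈ range T, ((univ : Finset (Fin e → ZMod p)).filter
          (fun ω => ev1 c (fun x => α x + ω ⬝ᵥ v n x) = 0)).card * (p - 1) := by
          rw [Finset.sum_mul]
      _ ≤ ∑ _n ∈ range T, Fintype.card V * r * p ^ e :=
          Finset.sum_le_sum fun n _ => card_zeros p c α (v n) h0
      _ = _ := by rw [Finset.sum_const, Finset.card_range, smul_eq_mul]
  have h5 : 2 * bad.card ≤ p ^ e := by
    have h6 : 2 * bad.card * (p - 1) ≤ p ^ e * (p - 1) := by
      calc 2 * bad.card * (p - 1) = 2 * (bad.card * (p - 1)) := by ring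
        _ ≤ 2 * (T * (Fintype.card V * r * p ^ e)) := Nat.mul_le_mul_left _ h3
        _ = 2 * (Fintype.card V * r) * (T * p ^ e) := by ring
        _ ≤ l * (T * p ^ e) := Nat.mul_le_mul_right _ hl
        _ = p ^ e * (p - 1) := by rw [← hT]; ring
    exact Nat.le_of_mul_le_mul_right h6 (by omega)
  have h7 : ((univ : Finset (Fin e → ZMod p)).filter
      (fun ω => ∀ n, ev1 c (fun x => α x + ω ⬝ᵥ v n x) ≠ 0)).card + bad.card = p ^ e := by
    rw [hbad, Finset.card_filter_add_card_filter_not, Finset.card_univ, hcard]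
  have h8 : Nat.card {ω : Fin e → ZMod p // ∀ n, ev1 c (fun x => α x + ω ⬝ᵥ v n x) ≠ 0} =
      ((univ : Finset (Fin e → ZMod p)).filter
        (fun ω => ∀ n, ev1 c (fun x => α x + ω ⬝ᵥ v n x) ≠ 0)).card := by
    rw [Nat.card_eq_fintype_card, Fintype.card_subtype]
  rw [h8]
  omega

end line

end Pool.Agent.K3h11.MK
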