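import Pool.Agent.K3h11.MK.Box2

set_option autoImplicit false

/-!
# Markov chains with random transition matrices: the two forms of the theorem (helper11)
-/

namespace Pool.Agent.K3h11.MK
open Matrix Pool.Agent.H884R2.Sko Pool.Agent.H684R3.Smo Pool.Agent.R77.Orb Finset

theorem GenP.mono {d D r : ℕ} {X X' Y : ℝ} {N : ℕ} {M : Matrix (Fin d) (Fin d) ℤ} (hX : X' ≤ X)
    (h : GenP D r X Y N M) : GenP D r X' Y N M := fun μ c hμ hc h1 h2 =>
  h μ c (fun i => (hμ i).trans hX) (fun m => (hc m).trans hX) h1 h2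

open Classical in
/-- perturbations of an arbitrary matrix -/
theorem smoothed (e D r : ℕ) (he : 1 ≤ e) : ∃ A : ℝ, 0 < A ∧ ∀ (C : ℝ), 0 ≤ C →
    ∃ δ : ℝ, 0 < δ ∧ ∃ H₀ : ℕ, ∀ H : ℕ, H₀ ≤ H → ∀ N : ℕ, 1 ≤ N → (N : ℝ) ≤ (H : ℝ) ^ C →
      ∀ B : Matrix (Fin (e + 1)) (Fin (e + 1)) ℤ,
      ∃ E : Finset (Matrix (Fin (e + 1)) (Fin (e + 1)) ℤ),
        (E.card : ℝ) ≤ (2 * (H : ℝ) + 1) ^ ((e + 1) * e) * (H : ℝ) ^ (-δ) ∧
        ∀ M : Matrix (Fin (e + 1)) (Fin (e + 1)) ℤ, (∀ i, ∑ j, M i j = (N : ℤ)) →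
          (∀ i j, i ≠ j → |M i j - B i j| ≤ (H : ℤ)) → M ∉ E →
          GenP D r ((H : ℝ) ^ δ) (Real.log H ^ A) N M := by
  obtain ⟨A, hA, hbox⟩ := box e D r he
  refine ⟨A, hA, fun C hC => ?_⟩
  obtain ⟨δ, hδ, H₀, h⟩ := hbox C hC
  refine ⟨δ, hδ, H₀, fun H hH N hN1 hN B => ?_⟩
  have h1 := h H hH N hN1 hN (fun x => B x.1 (x.1.succAbove x.2))
  refine ⟨((bx (fun x : Fin (e + 1) × Fin e => B x.1 (x.1.succAbove x.2)) H).filter
    (fun v => ¬ GenP D r ((H : ℝ) ^ δ) (Real.log H ^ A) N (mk (N : ℤ) v))).image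
      (fun v => mk (N : ℤ) v), ?_, ?_⟩
  · refine le_trans ?_ h1
    refine le_trans (Nat.cast_le.2 Finset.card_image_le) (Nat.cast_le.2 ?_)
    refine card_le_sub _ _ (finite_sub _ _ _) (fun v : Fin (e + 1) × Fin e → ℤ => v)
      (fun _ _ h => h) ?_
    intro v hv
    rw [Finset.mem_filter] at hv
    exact hv
  · intro M hM hMB hME
    by_contra hcon
    apply hME
    rw [Finset.mem_image]
    have hmk : mk (N : ℤ) (fun x => M x.1 (x.1.succAbove x.2)) = M := mk_eq (N : ℤ) M hM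
    refine ⟨fun x => M x.1 (x.1.succAbove x.2), ?_, hmk⟩
    rw [Finset.mem_filter]
    refine ⟨?_, by rw [hmk]; exact hcon⟩
    unfold bx
    rw [Fintype.mem_piFinset]
    intro x
    have h2 := abs_le.1 (hMB x.1 (x.1.succAbove x.2) (Fin.succAbove_ne x.1 x.2).symm)
    rw [Finset.mem_Icc]
    constructor <;> linarith [h2.1, h2.2]

/-- the stochastic matrices with denominator `N`, multiplied by `N` -/
abbrev Sto (d N : ℕ) : Type := {M : Matrix (Fin d) (Fin d) ℕ // ∀ i, ∑ j, M i j = N}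

theorem sto_le {d N : ℕ} (M : Sto d N) (i j : Fin d) : M.1 i j ≤ N := by
  have h := M.2 i
  calc M.1 i j ≤ ∑ j, M.1 i j :=
        Finset.single_le_sum (f := fun j => M.1 i j) (fun _ _ => Nat.zero_le _) (mem_univ j)
    _ = N := h

instance sto_fin (d N : ℕ) : Finite (Sto d N) :=
  Finite.of_injective (fun M : Sto d N => fun i j =>
    (⟨M.1 i j, Nat.lt_succ_of_le (sto_le M i j)⟩ : Fin (N + 1))) fun M M' h => by
      apply Subtype.ext
      ext i j
      have h1 := congrFun (congrFun h i) j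
      simpa using h1

theorem sto_card (e N : ℕ) (he : 1 ≤ e) :
    ((N : ℝ) / e) ^ ((e + 1) * e) ≤ (Nat.card (Sto (e + 1) N) : ℝ) := by
  have he0 : (0 : ℝ) < e := by exact_mod_cast he
  have h1 : (N / e + 1) ^ ((e + 1) * e) ≤ Nat.card (Sto (e + 1) N) := by
    have h2 : Nat.card (Fin (e + 1) × Fin e → Fin (N / e + 1)) = (N / e + 1) ^ ((e + 1) * e) := by
      rw [Nat.card_eq_fintype_card, Fintype.card_fun]
      simp
    rw [← h2]
    have hsum : ∀ (v : Fin (e + 1) × Fin e → Fin (N / e + 1)) (i : Fin (e + 1)),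
        ∑ k, (v (i, k) : ℕ) ≤ N := by
      intro v i
      calc ∑ k, (v (i, k) : ℕ) ≤ ∑ _k : Fin e, N / e :=
            Finset.sum_le_sum fun k _ => Nat.le_of_lt_succ (v (i, k)).2
        _ = e * (N / e) := by
            rw [Finset.sum_const, Finset.card_univ, Fintype.card_fin, smul_eq_mul]
        _ ≤ N := Nat.mul_div_le N e
    refine Nat.card_le_card_of_injective (fun v : Fin (e + 1) × Fin e → Fin (N / e + 1) =>
      (⟨Matrix.of fun i => i.insertNth (N - ∑ k, (v (i, k) : ℕ)) (fun k => (v (i, k) : ℕ)), ?_⟩ :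
        Sto (e + 1) N)) ?_
    · intro i
      rw [Fin.sum_univ_succAbove _ i]
      simp only [Matrix.of_apply, Fin.insertNth_apply_same, Fin.insertNth_apply_succAbove]
      exact Nat.sub_add_cancel (hsum v i)
    · intro v v' h
      funext ⟨i, k⟩
      have h3 := congrArg (fun M : Sto (e + 1) N => M.1 i (i.succAbove k)) h
      simp only [Matrix.of_apply, Fin.insertNth_apply_succAbove] at h3
      exact Fin.ext h3
  have h4 : (N : ℝ) / e ≤ ((N / e + 1 : ℕ) : ℝ) := by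
    rw [div_le_iff₀ he0]
    have h5 : N ≤ (N / e + 1) * e := by
      have := Nat.lt_div_mul_add (a := N) (b := e) (by omega)
      nlinarith
    exact_mod_cast h5
  calc ((N : ℝ) / e) ^ ((e + 1) * e) ≤ ((N / e + 1 : ℕ) : ℝ) ^ ((e + 1) * e) := by gcongr
    _ ≤ _ := by exact_mod_cast h1

open Classical in
/-- the uniform distribution on the stochastic matrices with denominator `N` -/
theorem uniform (e D r : ℕ) (he : 1 ≤ e) (A : ℝ)
    (h : ∃ δ : ℝ, 0 < δ ∧ ∃ H₀ : ℕ, ∀ H : ℕ, H₀ ≤ H → ∀ N : ℕ, 1 ≤ N →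
      (N : ℝ) ≤ (H : ℝ) ^ (1 : ℝ) → ∀ B : Matrix (Fin (e + 1)) (Fin (e + 1)) ℤ,
      ∃ E : Finset (Matrix (Fin (e + 1)) (Fin (e + 1)) ℤ),
        (E.card : ℝ) ≤ (2 * (H : ℝ) + 1) ^ ((e + 1) * e) * (H : ℝ) ^ (-δ) ∧
        ∀ M : Matrix (Fin (e + 1)) (Fin (e + 1)) ℤ, (∀ i, ∑ j, M i j = (N : ℤ)) →
          (∀ i j, i ≠ j → |M i j - B i j| ≤ (H : ℤ)) → M ∉ E →
          GenP D r ((H : ℝ) ^ δ) (Real.log H ^ A) N M) :
    ∃ δ : ℝ, 0 < δ ∧ ∃ N₀ : ℕ, ∀ N : ℕ, N₀ ≤ N →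
      ∃ E : Finset (Matrix (Fin (e + 1)) (Fin (e + 1)) ℕ),
        (E.card : ℝ) ≤ (N : ℝ) ^ (-δ) * (Nat.card (Sto (e + 1) N) : ℝ) ∧
        ∀ M : Matrix (Fin (e + 1)) (Fin (e + 1)) ℕ, (∀ i, ∑ j, M i j = N) → M ∉ E →
          GenP D r ((N : ℝ) ^ δ) (Real.log N ^ A) N (M.map (Nat.cast : ℕ → ℤ)) := by
  obtain ⟨δ, hδ, H₀, hmain⟩ := h
  have hev : ∀ᶠ N : ℕ in Filter.atTop, (3 * (e : ℝ)) ^ ((e + 1) * e) ≤ (N : ℝ) ^ (δ / 2) := by
    have : Filter.Tendsto (fun y : ℕ => (y : ℝ) ^ (δ / 2)) Filter.atTop Filter.atTop :=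
      (tendsto_rpow_atTop (by positivity)).comp tendsto_natCast_atTop_atTop
    exact this.eventually_ge_atTop _
  obtain ⟨N₁, hN₁⟩ := Filter.eventually_atTop.1 hev
  refine ⟨δ / 2, by positivity, max 1 (max H₀ N₁), fun N hN => ?_⟩
  have hN1 : 1 ≤ N := (le_max_left _ _).trans hN
  have hNH : H₀ ≤ N := (le_max_left _ _).trans ((le_max_right _ _).trans hN)
  have hNN : N₁ ≤ N := (le_max_right _ _).trans ((le_max_right _ _).trans hN)
  have he0 : (0 : ℝ) < e := by exact_mod_cast he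
  have hNr : (1 : ℝ) ≤ N := by exact_mod_cast hN1
  have hN0 : (0 : ℝ) < N := by linarith
  obtain ⟨E, hE1, hE2⟩ := hmain N hNH N hN1 (by rw [Real.rpow_one]) 0
  have hinj : Function.Injective (fun M : Matrix (Fin (e + 1)) (Fin (e + 1)) ℕ =>
      M.map (Nat.cast : ℕ → ℤ)) := by
    intro M M' h
    ext i j
    have h1 := congrFun (congrFun h i) j
    simp only [Matrix.map_apply] at h1
    exact_mod_cast h1
  refine ⟨E.preimage _ hinj.injOn, ?_, ?_⟩
  · have h1 : ((E.preimage _ hinj.injOn).card : ℝ) ≤ (E.card : ℝ) := by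
      refine Nat.cast_le.2 ?_
      refine Finset.card_le_card_of_injOn _ ?_ hinj.injOn
      intro M hM
      rw [Finset.mem_coe, Finset.mem_preimage] at hM
      exact hM
    have h2 := sto_card e N he
    have h3 : (2 * (N : ℝ) + 1) ^ ((e + 1) * e) ≤
        (3 * (e : ℝ)) ^ ((e + 1) * e) * ((N : ℝ) / e) ^ ((e + 1) * e) := by
      rw [← mul_pow]
      refine pow_le_pow_left₀ (by positivity) ?_ _
      have : 3 * (e : ℝ) * ((N : ℝ) / e) = 3 * N := by field_simp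
      rw [this]
      linarith
    have h4 := hN₁ N hNN
    calc ((E.preimage _ hinj.injOn).card : ℝ) ≤ (E.card : ℝ) := h1
      _ ≤ (2 * (N : ℝ) + 1) ^ ((e + 1) * e) * (N : ℝ) ^ (-δ) := hE1
      _ ≤ ((3 * (e : ℝ)) ^ ((e + 1) * e) * ((N : ℝ) / e) ^ ((e + 1) * e)) * (N : ℝ) ^ (-δ) := by
          gcongr
      _ ≤ ((N : ℝ) ^ (δ / 2) * (Nat.card (Sto (e + 1) N) : ℝ)) * (N : ℝ) ^ (-δ) := by gcongr
      _ = (N : ℝ) ^ (δ / 2) * (N : ℝ) ^ (-δ) * (Nat.card (Sto (e + 1) N) : ℝ) := by ring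
      _ = (N : ℝ) ^ (-(δ / 2)) * (Nat.card (Sto (e + 1) N) : ℝ) := by
          rw [← Real.rpow_add hN0]
          congr 2
          ring
  · intro M hM hME
    have h1 : M.map (Nat.cast : ℕ → ℤ) ∉ E := fun h => hME (Finset.mem_preimage.2 h)
    have h2 := hE2 (M.map (Nat.cast : ℕ → ℤ)) ?_ ?_ h1
    · refine h2.mono ?_
      exact Real.rpow_le_rpow_of_exponent_le hNr (by linarith)
    · intro i
      simp only [Matrix.map_apply]
      exact_mod_cast hM i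
    · intro i j _
      simp only [Matrix.map_apply, Matrix.zero_apply, sub_zero]
      have h3 : M i j ≤ N := sto_le ⟨M, hM⟩ i j
      rw [abs_of_nonneg (by positivity)]
      exact_mod_cast h3

end Pool.Agent.K3h11.MK
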