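import Pool.Agent.K3h11.MK.Count2

set_option autoImplicit false

/-!
# Matrices with constant row sums modulo a prime (helper11)
-/

namespace Pool.Agent.K3h11.MK
open Matrix Pool.Agent.H884R2.Sko Pool.Agent.H684R3.Smo Pool.Agent.R77.Orb Finset

section blk
variable {K : Type*} [Field K] {e : ℕ}

/-- the matrix with first row `(1, ω)`, first column `(1, 0)` and the block `B` -/
def blk (ω : Fin e → K) (B : Matrix (Fin e) (Fin e) K) : Matrix (Fin (e + 1)) (Fin (e + 1)) K :=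
  Matrix.of (Fin.cons (Fin.cons 1 ω) (fun i => Fin.cons 0 (B i)))

theorem blk_zero_zero (ω : Fin e → K) (B : Matrix (Fin e) (Fin e) K) : blk ω B 0 0 = 1 := rfl
theorem blk_zero_succ (ω : Fin e → K) (B : Matrix (Fin e) (Fin e) K) (j : Fin e) :
    blk ω B 0 j.succ = ω j := rfl
theorem blk_succ_zero (ω : Fin e → K) (B : Matrix (Fin e) (Fin e) K) (i : Fin e) :
    blk ω B i.succ 0 = 0 := rfl
theorem blk_succ_succ (ω : Fin e → K) (B : Matrix (Fin e) (Fin e) K) (i j : Fin e) :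
    blk ω B i.succ j.succ = B i j := rfl

theorem blk_mulVec (ω : Fin e → K) (B : Matrix (Fin e) (Fin e) K) (h₀ : K) (h : Fin e → K) :
    blk ω B *ᵥ (Fin.cons h₀ h : Fin (e + 1) → K) = Fin.cons (h₀ + ω ⬝ᵥ h) (B *ᵥ h) := by
  ext i
  refine Fin.cases ?_ (fun i => ?_) i
  · simp [Matrix.mulVec, dotProduct, Fin.sum_univ_succ, blk_zero_zero, blk_zero_succ]
  · simp [Matrix.mulVec, dotProduct, Fin.sum_univ_succ, blk_succ_zero, blk_succ_succ]

theorem blk_pow_mulVec (ω : Fin e → K) (B : Matrix (Fin e) (Fin e) K) (h₀ : K) (h : Fin e → K)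
    (n : ℕ) : (blk ω B ^ n) *ᵥ (Fin.cons h₀ h : Fin (e + 1) → K) =
      Fin.cons (h₀ + ω ⬝ᵥ tsum B h n) ((B ^ n) *ᵥ h) := by
  induction n with
  | zero =>
    rw [pow_zero, Matrix.one_mulVec, tsum_zero, dotProduct_zero, add_zero, pow_zero,
      Matrix.one_mulVec]
  | succ n ih =>
    rw [pow_succ', ← Matrix.mulVec_mulVec, ih, blk_mulVec, tsum_succ, dotProduct_add, add_assoc,
      Matrix.mulVec_mulVec, ← pow_succ']

theorem blk_inj {ω ω' : Fin e → K} {B B' : Matrix (Fin e) (Fin e) K} (h : blk ω B = blk ω' B') :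
    ω = ω' ∧ B = B' := by
  constructor
  · funext j
    rw [← blk_zero_succ ω B, h, blk_zero_succ]
  · ext i j
    rw [← blk_succ_succ ω B, h, blk_succ_succ]

end blk

section mk
variable {R : Type*} [CommRing R] {e : ℕ}

/-- the matrix with row sums `N` and the given entries off the diagonal -/
def mk (N : R) (v : Fin (e + 1) × Fin e → R) : Matrix (Fin (e + 1)) (Fin (e + 1)) R :=
  Matrix.of fun i => i.insertNth (N - ∑ k, v (i, k)) (fun k => v (i, k))

theorem mk_diag (N : R) (v : Fin (e + 1) × Fin e → R) (i : Fin (e + 1)) :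
    mk N v i i = N - ∑ k, v (i, k) := by
  unfold mk
  rw [Matrix.of_apply, Fin.insertNth_apply_same]

theorem mk_off (N : R) (v : Fin (e + 1) × Fin e → R) (i : Fin (e + 1)) (k : Fin e) :
    mk N v i (i.succAbove k) = v (i, k) := by
  unfold mk
  rw [Matrix.of_apply, Fin.insertNth_apply_succAbove]

theorem mk_row (N : R) (v : Fin (e + 1) × Fin e → R) (i : Fin (e + 1)) :
    ∑ j, mk N v i j = N := by
  rw [Fin.sum_univ_succAbove _ i, mk_diag]
  simp only [mk_off]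
  ring

/-- every matrix with row sums `N` is of this form -/
theorem mk_eq (N : R) (M : Matrix (Fin (e + 1)) (Fin (e + 1)) R) (hM : ∀ i, ∑ j, M i j = N) :
    mk N (fun x => M x.1 (x.1.succAbove x.2)) = M := by
  ext i j
  refine i.succAboveCases ?_ (fun k => ?_) j
  · rw [mk_diag]
    have h := hM i
    rw [Fin.sum_univ_succAbove _ i] at h
    rw [← h]
    ring
  · rw [mk_off]

theorem mk_inj (N : R) {v v' : Fin (e + 1) × Fin e → R} (h : mk N v = mk N v') : v = v' := by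
  funext ⟨i, k⟩
  rw [← mk_off N v, h, mk_off]

end mk

section win
open Pool.Agent.TH838.SK (ev1)

/-- the window `μ P ^ n, ..., μ P ^ (n + D)` -/
def win {R : Type*} [CommRing R] {d : ℕ} (D : ℕ) (P : Matrix (Fin d) (Fin d) R) (μ : Fin d → R)
    (n : ℕ) : Fin (D + 1) × Fin d → R := fun x => (μ ᵥ* (P ^ (n + (x.1 : ℕ)))) x.2

/-- the windows have period `p - 1` and the polynomial with the coefficients `c` is never zero on
them -/
def GoodK {p d D r : ℕ} (P : Matrix (Fin d) (Fin d) (ZMod p)) (μ : Fin d → ZMod p)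
    (c : (Fin (D + 1) × Fin d → Fin (r + 1)) → ZMod p) : Prop :=
  (∀ n, win D P μ (n + (p - 1)) = win D P μ n) ∧ ∀ n, ev1 c (win D P μ n) ≠ 0

/-- the count of the good matrices with constant row sums -/
theorem densK (e D r l : ℕ) (he : 1 ≤ e) (hl1 : 1 ≤ l) (hl : 2 * ((D + 1) * (e + 1) * r) ≤ l) :
    ∃ κ : ℝ, 0 < κ ∧ ∀ p : ℕ, p.Prime → 2 * l * e + 2 ≤ p → l ∣ p - 1 →
    ∀ (N : ZMod p) (N' : ZMod p) (μ : Fin (e + 1) → ZMod p)
      (c : (Fin (D + 1) × Fin (e + 1) → Fin (r + 1)) → ZMod p),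
      N' * N = 1 → ∑ i, μ i ≠ 0 → ev1 c (fun x => μ x.2) ≠ 0 → κ * (p : ℝ) ^ ((e + 1) * e) ≤
      (Nat.card {v : Fin (e + 1) × Fin e → ZMod p // GoodK (N' • mk N v) μ c} : ℝ) := by
  classical
  obtain ⟨κ, hκ, hden⟩ := densV e l he hl1
  refine ⟨κ / 2, by positivity, fun p hp hpe hdvd N N' μ c hN hμ hfa => ?_⟩
  have : Fact p.Prime := ⟨hp⟩
  have : NeZero p := ⟨hp.ne_zero⟩
  obtain ⟨T, hT'⟩ := hdvd
  have hT : l * T = p - 1 := hT'.symm
  have hN0 : N ≠ 0 := right_ne_zero_of_mul_eq_one hN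
  set e₀ : Fin (e + 1) → ZMod p := Fin.cons 1 0 with he₀
  set one : Fin (e + 1) → ZMod p := fun _ => 1 with hone
  have h00 : e₀ ⬝ᵥ e₀ ≠ 0 := by
    rw [he₀]; simp [dotProduct, Fin.sum_univ_succ]
  have h01 : μ ⬝ᵥ one ≠ 0 := by
    rw [hone]; simpa [dotProduct] using hμ
  obtain ⟨g, s, hs, hg1, hg2⟩ := exists_gl e₀ e₀ one μ h00 h01
  have hinv : ((g⁻¹ : GL (Fin (e + 1)) (ZMod p)) : Matrix (Fin (e + 1)) (Fin (e + 1)) (ZMod p)) *
      (g : Matrix (Fin (e + 1)) (Fin (e + 1)) (ZMod p)) = 1 := g.inv_mul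
  have hinv' : (g : Matrix (Fin (e + 1)) (Fin (e + 1)) (ZMod p)) *
      ((g⁻¹ : GL (Fin (e + 1)) (ZMod p)) : Matrix (Fin (e + 1)) (Fin (e + 1)) (ZMod p)) = 1 :=
    g.mul_inv
  set f : Fin (e + 1) → Fin (e + 1) → ZMod p := fun i => Pi.single i 1 with hf
  set h : Fin (e + 1) → Fin (e + 1) → ZMod p := fun k =>
    ((g⁻¹ : GL (Fin (e + 1)) (ZMod p)) : Matrix (Fin (e + 1)) (Fin (e + 1)) (ZMod p)) *ᵥ f k
    with hh
  have hgf : ∀ k, (g : Matrix (Fin (e + 1)) (Fin (e + 1)) (ZMod p)) *ᵥ h k = f k := by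
    intro k
    rw [hh]
    simp only
    rw [Matrix.mulVec_mulVec, hinv', Matrix.one_mulVec]
  have hcons : ∀ k, (Fin.cons (h k 0) (Fin.tail (h k)) : Fin (e + 1) → ZMod p) = h k :=
    fun k => Fin.cons_self_tail (h k)
  have hdot : ∀ v : Fin (e + 1) → ZMod p, e₀ ⬝ᵥ v = v 0 := by
    intro v; rw [he₀]; simp [dotProduct, Fin.sum_univ_succ]
  have hμf : ∀ k, μ k = h k 0 := by
    intro k
    have h1 : μ ⬝ᵥ f k = h k 0 := by
      rw [← hgf k, Matrix.dotProduct_mulVec, hg2, hdot]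
    rw [← h1, hf]
    simp
  -- the good pairs
  let V : Matrix (Fin e) (Fin e) (ZMod p) → ℕ → Fin (D + 1) × Fin (e + 1) → Fin e → ZMod p :=
    fun B n x => tsum B (Fin.tail (h x.2)) (n + x.1)
  have hV : ∀ B : Matrix (Fin e) (Fin e) (ZMod p), (∀ x, tsum B x T = 0) →
      ∀ n, V B (n + T) = V B n := by
    intro B hB n
    funext x
    show tsum B (Fin.tail (h x.2)) (n + T + x.1) = tsum B (Fin.tail (h x.2)) (n + x.1)
    rw [show n + T + (x.1 : ℕ) = n + x.1 + T by ring]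
    exact tsum_period _ _ _ (hB _) _
  have hcV : Fintype.card (Fin (D + 1) × Fin (e + 1)) = (D + 1) * (e + 1) := by simp
  let X := Σ B : {B : Matrix (Fin e) (Fin e) (ZMod p) // ∀ x, tsum B x T = 0},
    {ω : Fin e → ZMod p // ∀ n, ev1 c (fun x => μ x.2 + ω ⬝ᵥ V B.1 n x) ≠ 0}
  have hXcard : Nat.card {B : Matrix (Fin e) (Fin e) (ZMod p) // ∀ x, tsum B x T = 0} * p ^ e ≤
      2 * Nat.card X := by
    rw [Nat.card_eq_fintype_card (α := X), Fintype.card_sigma, Finset.mul_sum,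
      Nat.card_eq_fintype_card, ← Finset.card_univ, ← smul_eq_mul]
    refine Finset.card_nsmul_le_sum _ _ _ fun B _ => ?_
    have h1 := count_omega p l T (by rw [hcV]; exact hl) hT c (fun x => μ x.2) (V B.1)
      (hV B.1 B.2) hfa
    rw [Nat.card_eq_fintype_card] at h1
    exact h1
  -- the map
  let P : X → Matrix (Fin (e + 1)) (Fin (e + 1)) (ZMod p) := fun x =>
    (g : Matrix (Fin (e + 1)) (Fin (e + 1)) (ZMod p)) * blk x.2.1 x.1.1 *
      ((g⁻¹ : GL (Fin (e + 1)) (ZMod p)) : Matrix (Fin (e + 1)) (Fin (e + 1)) (ZMod p))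
  have hPpow : ∀ (x : X) (n : ℕ), P x ^ n =
      (g : Matrix (Fin (e + 1)) (Fin (e + 1)) (ZMod p)) * blk x.2.1 x.1.1 ^ n *
      ((g⁻¹ : GL (Fin (e + 1)) (ZMod p)) : Matrix (Fin (e + 1)) (Fin (e + 1)) (ZMod p)) :=
    fun x n => Units.conj_pow g _ n
  have hPone : ∀ x : X, P x *ᵥ one = one := by
    intro x
    have h1 : ((g⁻¹ : GL (Fin (e + 1)) (ZMod p)) :
        Matrix (Fin (e + 1)) (Fin (e + 1)) (ZMod p)) *ᵥ one = s⁻¹ • e₀ := by
      have h2 : one = s⁻¹ • ((g : Matrix (Fin (e + 1)) (Fin (e + 1)) (ZMod p)) *ᵥ e₀) := by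
        rw [hg1, smul_smul, inv_mul_cancel₀ hs, one_smul]
      conv_lhs => rw [h2]
      rw [Matrix.mulVec_smul, Matrix.mulVec_mulVec, hinv, Matrix.one_mulVec]
    have h3 : blk x.2.1 x.1.1 *ᵥ e₀ = e₀ := by
      rw [he₀, blk_mulVec]
      simp
    show ((g : Matrix (Fin (e + 1)) (Fin (e + 1)) (ZMod p)) * blk x.2.1 x.1.1 *
      ((g⁻¹ : GL (Fin (e + 1)) (ZMod p)) :
        Matrix (Fin (e + 1)) (Fin (e + 1)) (ZMod p))) *ᵥ one = one
    rw [← Matrix.mulVec_mulVec, h1, Matrix.mulVec_smul, ← Matrix.mulVec_mulVec, h3, hg1, smul_smul,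
      inv_mul_cancel₀ hs, one_smul]
  have hrow : ∀ (x : X) (i : Fin (e + 1)), ∑ j, (N • P x) i j = N := by
    intro x i
    have h1 := congrFun (hPone x) i
    simp only [hone, Matrix.mulVec, dotProduct, mul_one] at h1
    simp only [Matrix.smul_apply, smul_eq_mul]
    rw [← Finset.mul_sum, h1, mul_one]
  let Φ : X → (Fin (e + 1) × Fin e → ZMod p) := fun x y => (N • P x) y.1 (y.1.succAbove y.2)
  have hΦ : ∀ x, mk N (Φ x) = N • P x := fun x => mk_eq N _ (hrow x)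
  have hΦ' : ∀ x, N' • mk N (Φ x) = P x := fun x => by
    rw [hΦ, smul_smul, hN, one_smul]
  have hPf : ∀ (x : X) (n : ℕ) (k : Fin (e + 1)), (μ ᵥ* (P x ^ n)) k =
      μ k + x.2.1 ⬝ᵥ tsum x.1.1 (Fin.tail (h k)) n := by
    intro x n k
    have h0 : (μ ᵥ* (P x ^ n)) k = μ ⬝ᵥ ((P x ^ n) *ᵥ f k) := by
      rw [hf]
      simp only
      rw [Matrix.mulVec_single_one]
      rfl
    rw [h0, hPpow]
    have h1 : ((g : Matrix (Fin (e + 1)) (Fin (e + 1)) (ZMod p)) * blk x.2.1 x.1.1 ^ n *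
        ((g⁻¹ : GL (Fin (e + 1)) (ZMod p)) :
          Matrix (Fin (e + 1)) (Fin (e + 1)) (ZMod p))) *ᵥ f k =
        (g : Matrix (Fin (e + 1)) (Fin (e + 1)) (ZMod p)) *ᵥ (blk x.2.1 x.1.1 ^ n *ᵥ h k) := by
      rw [← Matrix.mulVec_mulVec, ← Matrix.mulVec_mulVec]
    have h2 : (blk x.2.1 x.1.1 ^ n *ᵥ h k) 0 = h k 0 + x.2.1 ⬝ᵥ tsum x.1.1 (Fin.tail (h k)) n := by
      conv_lhs => rw [← hcons k]
      rw [blk_pow_mulVec, Fin.cons_zero]
    rw [h1, Matrix.dotProduct_mulVec, hg2, hdot, h2, ← hμf]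
  have hwin : ∀ (x : X) (n : ℕ), win D (P x) μ n =
      fun y => μ y.2 + x.2.1 ⬝ᵥ V x.1.1 n y := by
    intro x n
    funext y
    exact hPf x (n + y.1) y.2
  have hgood : ∀ x : X, GoodK (N' • mk N (Φ x)) μ c := by
    intro x
    rw [hΦ']
    constructor
    · intro n
      rw [hwin, hwin]
      have h1 : ∀ j, V x.1.1 (n + j * T) = V x.1.1 n := by
        intro j
        induction j with
        | zero => rw [Nat.zero_mul]; rfl
        | succ j ih =>
          rw [show n + (j + 1) * T = n + j * T + T by ring, hV _ x.1.2, ih]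
      rw [← hT, h1]
    · intro n
      rw [hwin]
      exact x.2.2 n
  have hΦinj : Function.Injective Φ := by
    intro x y hxy
    have h2 : P x = P y := by rw [← hΦ', ← hΦ', hxy]
    have h4 : blk x.2.1 x.1.1 = blk y.2.1 y.1.1 := by
      have h5 := congrArg (fun A => ((g⁻¹ : GL (Fin (e + 1)) (ZMod p)) :
        Matrix (Fin (e + 1)) (Fin (e + 1)) (ZMod p)) * A *
        (g : Matrix (Fin (e + 1)) (Fin (e + 1)) (ZMod p))) h2
      simp only [P, Matrix.mul_assoc, hinv, Matrix.mul_one] at h5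
      rw [← Matrix.mul_assoc, ← Matrix.mul_assoc, hinv, Matrix.one_mul, Matrix.one_mul] at h5
      exact h5
    obtain ⟨h6, h7⟩ := blk_inj h4
    obtain ⟨⟨B, hB⟩, ⟨ω, hω⟩⟩ := x
    obtain ⟨⟨B', hB'⟩, ⟨ω', hω'⟩⟩ := y
    simp only at h6 h7
    subst h6
    subst h7
    rfl
  have hfin : Nat.card X ≤
      Nat.card {v : Fin (e + 1) × Fin e → ZMod p // GoodK (N' • mk N v) μ c} :=
    Nat.card_le_card_of_injective
      (fun x => (⟨Φ x, hgood x⟩ :
        {v : Fin (e + 1) × Fin e → ZMod p // GoodK (N' • mk N v) μ c}))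
      (fun x y hxy => hΦinj (congrArg Subtype.val hxy))
  have h1 := hden p hp hpe T hT
  have h2 : (Nat.card {B : Matrix (Fin e) (Fin e) (ZMod p) // ∀ x, tsum B x T = 0} : ℝ) *
      (p : ℝ) ^ e ≤ 2 * (Nat.card X : ℝ) := by exact_mod_cast hXcard
  have h3 : (Nat.card X : ℝ) ≤
      (Nat.card {v : Fin (e + 1) × Fin e → ZMod p // GoodK (N' • mk N v) μ c} : ℝ) := by
    exact_mod_cast hfin
  have hp0 : (0 : ℝ) < p := by exact_mod_cast hp.pos
  have h4 : κ * (p : ℝ) ^ (e * e) * (p : ℝ) ^ e ≤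
      (Nat.card {B : Matrix (Fin e) (Fin e) (ZMod p) // ∀ x, tsum B x T = 0} : ℝ) *
        (p : ℝ) ^ e :=
    mul_le_mul_of_nonneg_right h1 (by positivity)
  have h5 : κ / 2 * (p : ℝ) ^ ((e + 1) * e) = (κ * (p : ℝ) ^ (e * e) * (p : ℝ) ^ e) / 2 := by
    rw [add_mul, one_mul, pow_add]; ring
  rw [h5]
  linarith

end win

end Pool.Agent.K3h11.MK
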